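import Mathlib

/-!
# ℝ-factorizable groups and discrete families: basic tools
-/

set_option autoImplicit false

namespace Pool.Agent.Q212.RF

open Cardinal Topology Set Filter

universe u v w

/-- `G` is ℝ-factorizable: every continuous real function factors through a continuous
homomorphism to a second countable (Hausdorff) topological group. -/
def RFactorizable (G : Type u) [Group G] [TopologicalSpace G] : Prop :=
  ∀ f : G → ℝ, Continuous f → ∃ (K : Type u) (_ : Group K) (_ : TopologicalSpace K)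
    (_ : IsTopologicalGroup K) (_ : T2Space K) (_ : SecondCountableTopology K)
    (h : G →* K) (g : K → ℝ), Continuous h ∧ Continuous g ∧ f = g ∘ h

/-- A discrete family of sets: every point has a neighbourhood which meets at most one member. -/
def DiscreteFamily {X : Type u} [TopologicalSpace X] {ι : Type v} (O : ι → Set X) : Prop :=
  ∀ x, ∃ U ∈ 𝓝 x, {i | (O i ∩ U).Nonempty}.Subsingleton

theorem DiscreteFamily.eq {X : Type u} [TopologicalSpace X] {ι : Type v} {O : ι → Set X}
    (hO : DiscreteFamily O) {i j : ι} {x : X} (hi : x ∈ O i) (hj : x ∈ O j) : i = j := by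
  obtain ⟨U, hU, hs⟩ := hO x
  exact hs ⟨x, hi, mem_of_mem_nhds hU⟩ ⟨x, hj, mem_of_mem_nhds hU⟩

theorem DiscreteFamily.comp {X : Type u} [TopologicalSpace X] {ι : Type v} {κ : Type w}
    {O : ι → Set X} (hO : DiscreteFamily O) {e : κ → ι} (he : Function.Injective e) :
    DiscreteFamily (fun k => O (e k)) := by
  intro x
  obtain ⟨U, hU, hs⟩ := hO x
  exact ⟨U, hU, fun i hi j hj => he (hs hi hj)⟩

/-- The sum of functions supported in the members of a discrete family. -/
noncomputable def glue {X : Type u} {ι : Type v} (φ : ι → X → ℝ) (x : X) : ℝ := ∑ᶠ i, φ i x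

theorem glue_continuous {X : Type u} [TopologicalSpace X] {ι : Type v} {O : ι → Set X}
    (hO : DiscreteFamily O) {φ : ι → X → ℝ} (hc : ∀ i, Continuous (φ i))
    (h0 : ∀ i x, x ∉ O i → φ i x = 0) : Continuous (glue φ) := by
  refine continuous_finsum hc ?_
  intro x
  obtain ⟨U, hU, hs⟩ := hO x
  refine ⟨U, hU, (hs.anti ?_).finite⟩
  rintro i ⟨y, hy1, hy2⟩
  refine ⟨y, ?_, hy2⟩
  by_contra hyi
  exact hy1 (h0 i y hyi)

theorem glue_eq {X : Type u} [TopologicalSpace X] {ι : Type v} {O : ι → Set X}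
    (hO : DiscreteFamily O) {φ : ι → X → ℝ} (h0 : ∀ i x, x ∉ O i → φ i x = 0) {i : ι} {x : X}
    (hx : x ∈ O i) : glue φ x = φ i x := by
  refine finsum_eq_single _ i ?_
  intro j hj
  refine h0 j x fun hxj => hj (hO.eq hxj hx)

theorem glue_eq_zero {X : Type u} {ι : Type v} {O : ι → Set X}
    {φ : ι → X → ℝ} (h0 : ∀ i x, x ∉ O i → φ i x = 0) {x : X}
    (hx : ∀ i, x ∉ O i) : glue φ x = 0 := by
  unfold glue
  rw [finsum_congr (fun i => h0 i x (hx i))]
  exact finsum_zero

/-- bump functions -/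
theorem exists_bump {G : Type u} [Group G] [TopologicalSpace G] [IsTopologicalGroup G]
    {U : Set G} (hU : IsOpen U) {x : G} (hx : x ∈ U) :
    ∃ φ : G → ℝ, Continuous φ ∧ φ x = 1 ∧ ∀ y, y ∉ U → φ y = 0 := by
  letI : UniformSpace G := IsTopologicalGroup.rightUniformSpace G
  obtain ⟨f, hf, hfx, hfU⟩ := CompletelyRegularSpace.completely_regular x Uᶜ
    hU.isClosed_compl (by simpa using hx)
  refine ⟨fun y => 1 - (f y : ℝ), continuous_const.sub (continuous_subtype_val.comp hf), ?_, ?_⟩
  · simp [hfx]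
  · intro y hy
    have := hfU (show y ∈ Uᶜ from hy)
    simp [this]

/-- factorization of two functions -/
theorem RFactorizable.pair {G : Type u} [Group G] [TopologicalSpace G]
    (hG : RFactorizable G) {f₁ f₂ : G → ℝ} (h₁ : Continuous f₁) (h₂ : Continuous f₂) :
    ∃ (K : Type u) (_ : Group K) (_ : TopologicalSpace K)
    (_ : IsTopologicalGroup K) (_ : SecondCountableTopology K)
    (h : G →* K) (g₁ g₂ : K → ℝ), Continuous g₁ ∧ Continuous g₂ ∧
      (∀ x, f₁ x = g₁ (h x)) ∧ ∀ x, f₂ x = g₂ (h x) := by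
  obtain ⟨K₁, _, _, _, _, _, k₁, g₁, _, hg₁, e₁⟩ := hG f₁ h₁
  obtain ⟨K₂, _, _, _, _, _, k₂, g₂, _, hg₂, e₂⟩ := hG f₂ h₂
  refine ⟨K₁ × K₂, inferInstance, inferInstance, inferInstance, inferInstance, k₁.prod k₂,
    fun p => g₁ p.1, fun p => g₂ p.2, hg₁.comp continuous_fst, hg₂.comp continuous_snd, ?_, ?_⟩
  · intro x
    rw [e₁]
    rfl
  · intro x
    rw [e₂]
    rfl

/-- an uncountable family of pairs contains two which can be interchanged -/
theorem RFactorizable.exchange {G : Type u} [Group G] [TopologicalSpace G]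
    (hG : RFactorizable G) {f : G → ℝ} (hf : Continuous f) {ι : Type v} [Uncountable ι]
    (X Y : ι → G) (h1 : ∀ i, f (X i * Y i) = 1) :
    ∃ i j, i ≠ j ∧ 1 / 2 < f (X i * Y j) ∧ 1 / 2 < f (X j * Y i) := by
  obtain ⟨K, _, _, _, _, _, h, g, _, hg, rfl⟩ := hG f hf
  have hop : IsOpen {p : K × K | 1 / 2 < g (p.1 * p.2)} :=
    isOpen_lt continuous_const (hg.comp (continuous_fst.mul continuous_snd))
  have key : ∀ i, ∃ U ∈ TopologicalSpace.countableBasis K,
      ∃ V ∈ TopologicalSpace.countableBasis K, h (X i) ∈ U ∧ h (Y i) ∈ V ∧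
        ∀ a ∈ U, ∀ b ∈ V, 1 / 2 < g (a * b) := by
    intro i
    have hm : (h (X i), h (Y i)) ∈ {p : K × K | 1 / 2 < g (p.1 * p.2)} := by
      have := h1 i
      simp only [Function.comp, map_mul] at this
      simp only [mem_setOf_eq, this]
      norm_num
    obtain ⟨U, V, hU, hV, hxU, hyV, hUV⟩ := isOpen_prod_iff.1 hop _ _ hm
    obtain ⟨U', hU', hx', hsU⟩ :=
      (TopologicalSpace.isBasis_countableBasis K).exists_subset_of_mem_open hxU hU
    obtain ⟨V', hV', hy', hsV⟩ :=
      (TopologicalSpace.isBasis_countableBasis K).exists_subset_of_mem_open hyV hV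
    exact ⟨U', hU', V', hV', hx', hy', fun a ha b hb => hUV (show (a, b) ∈ U ×ˢ V from
      ⟨hsU ha, hsV hb⟩)⟩
  choose U hU V hV hxU hyV hUV using key
  have hcount : Countable (TopologicalSpace.countableBasis K × TopologicalSpace.countableBasis K) := by
    have := (TopologicalSpace.countable_countableBasis K).to_subtype
    infer_instance
  have hninj : ¬ Function.Injective (fun i => ((⟨U i, hU i⟩, ⟨V i, hV i⟩) :
      TopologicalSpace.countableBasis K × TopologicalSpace.countableBasis K)) := by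
    intro hinj
    exact not_countable (α := ι) hinj.countable
  simp only [Function.Injective, not_forall] at hninj
  obtain ⟨i, j, hij, hne⟩ := hninj
  have e1 : U i = U j := by
    have := congrArg (fun p => (p.1 : Set K)) hij
    exact this
  have e2 : V i = V j := by
    have := congrArg (fun p => (p.2 : Set K)) hij
    exact this
  refine ⟨i, j, hne, ?_, ?_⟩
  · have := hUV i (h (X i)) (hxU i) (h (Y j)) (e2 ▸ hyV j)
    simpa [Function.comp, map_mul] using this
  · have := hUV i (h (X j)) (e1 ▸ hxU j) (h (Y i)) (hyV i)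
    simpa [Function.comp, map_mul] using this

/-- an uncountable type is not a countable union of countable fibres -/
theorem exists_uncountable_fibre {ι : Type v} [Uncountable ι] {κ : Type w} (s : Set κ)
    (hs : s.Countable) (f : ι → κ) (hf : ∀ i, f i ∈ s) :
    ∃ k ∈ s, ¬ {i | f i = k}.Countable := by
  by_contra hcon
  push Not at hcon
  have : (univ : Set ι).Countable := by
    have h1 : (⋃ k ∈ s, {i | f i = k}).Countable := hs.biUnion hcon
    refine h1.mono ?_
    intro i _
    simp only [mem_iUnion, mem_setOf_eq]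
    exact ⟨f i, hf i, rfl⟩
  exact not_countable (α := ι) (countable_univ_iff.1 this)

/-- ω-narrowness of second countable groups -/
theorem narrow {K : Type w} [Group K] [TopologicalSpace K] [IsTopologicalGroup K]
    [SecondCountableTopology K] {V : Set K} (hV : V ∈ 𝓝 (1 : K)) {ι : Type v} [Uncountable ι]
    (z : ι → K) : ∃ i, ¬ {j | (z i)⁻¹ * z j ∈ V}.Countable := by
  have hcont : Tendsto (fun p : K × K => p.1⁻¹ * p.2) (𝓝 (1, 1)) (𝓝 1) := by
    have : ContinuousAt (fun p : K × K => p.1⁻¹ * p.2) (1, 1) :=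
      (continuous_fst.inv.mul continuous_snd).continuousAt
    simpa [ContinuousAt] using this
  have hpre := hcont hV
  rw [Filter.mem_map, mem_nhds_prod_iff] at hpre
  obtain ⟨A, hA, B, hB, hAB⟩ := hpre
  let W := A ∩ B
  have hW : W ∈ 𝓝 (1 : K) := inter_mem hA hB
  obtain ⟨s, hs, hcov⟩ := TopologicalSpace.countable_cover_nhds
    (f := fun k : K => (fun x => k⁻¹ * x) ⁻¹' W) (fun k => by
      have : ContinuousAt (fun x : K => k⁻¹ * x) k := by fun_prop
      refine this ?_
      simpa using hW)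
  have hex : ∀ i, ∃ k ∈ s, k⁻¹ * z i ∈ W := by
    intro i
    have : z i ∈ ⋃ k ∈ s, (fun x => k⁻¹ * x) ⁻¹' W := by rw [hcov]; trivial
    simpa using this
  choose k hk hkW using hex
  obtain ⟨c, -, hc⟩ := exists_uncountable_fibre s hs k hk
  have hne : {i | k i = c}.Nonempty := by
    by_contra h
    rw [not_nonempty_iff_eq_empty] at h
    exact hc (h ▸ countable_empty)
  obtain ⟨i, hi⟩ := hne
  refine ⟨i, fun hcc => hc (hcc.mono ?_)⟩
  intro j hj
  simp only [mem_setOf_eq] at hi hj ⊢
  have h2 : (k i)⁻¹ * z i ∈ W := hkW i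
  have h3 : (k j)⁻¹ * z j ∈ W := hkW j
  rw [hi] at h2
  rw [hj] at h3
  have h4 : ((c⁻¹ * z i), (c⁻¹ * z j)) ∈ A ×ˢ B := ⟨h2.1, h3.2⟩
  have h5 := hAB h4
  simpa [mul_assoc] using h5

/-- recursion along a well order -/
theorem exists_rec {Ω : Type w} [LinearOrder Ω] [WellFoundedLT Ω] {D : Type v}
    (P : Set D → D → Prop) (C : Set D → Prop) (hC : ∀ (x : Ω → D) (i : Ω), C (x '' Iio i))
    (hP : ∀ S, C S → ∃ d, P S d) [Nonempty D] : ∃ x : Ω → D, ∀ i, P (x '' Iio i) (x i) := by
  classical
  choose! X hX using hP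
  let wf : WellFounded ((· < ·) : Ω → Ω → Prop) := wellFounded_lt
  let x : Ω → D := wf.fix (fun i ih => X {d | ∃ (j : Ω) (h : j < i), ih j h = d})
  have hx : ∀ i, x i = X (x '' Iio i) := by
    intro i
    have h1 : x i = X {d | ∃ (j : Ω) (h : j < i), x j = d} := by
      simp only [x]
      rw [WellFounded.fix_eq]
    rw [h1]
    congr 1
    ext d
    simp only [mem_setOf_eq, mem_image, mem_Iio, exists_prop]
  refine ⟨x, fun i => ?_⟩
  have := hX (x '' Iio i) (hC x i)
  rwa [← hx i] at this

end Pool.Agent.Q212.RF
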