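import Pool.Agent.Q212.RF.Basic

/-!
# Second countable quotients accumulate at almost all members of a discrete family
-/

set_option autoImplicit false

namespace Pool.Agent.Q212.RF

open Cardinal Topology Set Filter

universe u v w

/-- the countable ordinals -/
abbrev Om : Type := (ℵ₁ : Cardinal.{0}).ord.ToType

theorem om_Iio (i : Om) : (Iio i).Countable := by
  have h : #(Iio i) < ℵ₁ := by
    have := Cardinal.mk_Iio_ord_toType i
    simpa using this
  rw [← Cardinal.le_aleph0_iff_set_countable]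
  have h2 : #(Iio i) < Order.succ ℵ₀ := lt_of_lt_of_le h (le_of_eq Cardinal.succ_aleph0.symm)
  exact Order.lt_succ_iff.1 h2

theorem om_Iic (i : Om) : (Iic i).Countable := by
  rw [← Iio_insert]
  exact (om_Iio i).insert i

instance om_uncountable : Uncountable Om := by
  rw [← Cardinal.aleph0_lt_mk_iff]
  rw [Cardinal.mk_toType, Cardinal.card_ord]
  exact Cardinal.aleph0_lt_aleph_one

theorem om_bdd {E : Set Om} (hE : E.Countable) : ∃ i, ∀ e ∈ E, e < i := by
  by_contra hcon
  push Not at hcon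
  have : (univ : Set Om).Countable := by
    have h1 : (⋃ e ∈ E, Iic e).Countable := hE.biUnion fun e _ => om_Iic e
    refine h1.mono ?_
    intro i _
    obtain ⟨e, he, hie⟩ := hcon i
    simp only [mem_iUnion, mem_Iic]
    exact ⟨e, he, hie⟩
  exact not_countable (α := Om) (countable_univ_iff.1 this)

/-- For a homomorphism `h` to a second countable group there is a countable set `A` of indices
such that for all other `x` the differences of the points `z y`, `y ∈ A`, `y < x`, which move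
`z x` out of `O x` accumulate at the identity of `K`. -/
theorem claimA {G : Type u} [Group G] [TopologicalSpace G] [IsTopologicalGroup G]
    (hG : RFactorizable G) {I : Type v} [LinearOrder I] [WellFoundedLT I] [Nonempty I]
    (O : I → Set G) (hOo : ∀ i, IsOpen (O i)) (hd : DiscreteFamily O) (z : I → G)
    (hz : ∀ i, z i ∈ O i) {K : Type w} [Group K] [TopologicalSpace K] [IsTopologicalGroup K]
    [SecondCountableTopology K] (h : G →* K) (V : ℕ → Set K) (hV : ∀ n, V n ∈ 𝓝 (1 : K)) :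
    ∃ A : Set I, A.Countable ∧ ∀ x, x ∉ A → ∀ n, ∃ y ∈ A, ∃ w ∈ A, y < x ∧ w < x ∧
      h ((z y)⁻¹ * z w) ∈ V n ∧ z x * (z y)⁻¹ * z w ∉ O x := by
  by_contra hcon
  have hP : ∀ A : Set I, A.Countable → ∃ x, x ∉ A ∧ ∃ n, ∀ y ∈ A, ∀ w ∈ A, y < x → w < x →
      h ((z y)⁻¹ * z w) ∈ V n → z x * (z y)⁻¹ * z w ∈ O x := by
    intro A hA
    by_contra h1
    refine hcon ⟨A, hA, fun x hx n => ?_⟩
    by_contra h2
    refine h1 ⟨x, hx, n, fun y hy w hw hyx hwx hV => ?_⟩
    by_contra h3
    exact h2 ⟨y, hy, w, hw, hyx, hwx, hV, h3⟩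
  obtain ⟨x, hx⟩ := exists_rec (Ω := Om) (fun (A : Set I) x => x ∉ A ∧ ∃ n, ∀ y ∈ A, ∀ w ∈ A,
    y < x → w < x → h ((z y)⁻¹ * z w) ∈ V n → z x * (z y)⁻¹ * z w ∈ O x)
    (fun A => A.Countable) (fun x i => (om_Iio i).image x) hP
  have hx1 : ∀ i, x i ∉ x '' Iio i := fun i => (hx i).1
  have hx2 : ∀ i, ∃ n, ∀ y ∈ x '' Iio i, ∀ w ∈ x '' Iio i, y < x i → w < x i →
    h ((z y)⁻¹ * z w) ∈ V n → z (x i) * (z y)⁻¹ * z w ∈ O (x i) := fun i => (hx i).2
  choose n hn using hx2
  have hne : ∀ i j, j < i → x j ≠ x i := fun i j hji e => hx1 i ⟨j, hji, e⟩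
  have hinj : Function.Injective x := by
    intro i j hij
    rcases lt_trichotomy i j with h1 | h1 | h1
    · exact absurd hij (hne j i h1)
    · exact h1
    · exact absurd hij.symm (hne i j h1)
  -- the set where `x` is increasing
  let E : Set Om := {i | ∀ j, i < j → x i < x j}
  have hE : ¬ E.Countable := by
    intro hc
    obtain ⟨i0, hi0⟩ := om_bdd hc
    have hwf : (x '' Ici i0).Nonempty := ⟨x i0, i0, mem_Ici.2 le_rfl, rfl⟩
    obtain ⟨m, ⟨j, hj, rfl⟩, hmin⟩ := WellFounded.has_min (wellFounded_lt (α := I)) _ hwf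
    have hjE : j ∈ E := by
      intro k hk
      have h1 : ¬ x k < x j := hmin (x k) ⟨k, mem_Ici.2 (le_trans hj hk.le), rfl⟩
      exact lt_of_le_of_ne (not_lt.1 h1) (hne k j hk)
    exact absurd (hi0 j hjE) (not_lt.2 hj)
  have : Uncountable E := by
    rw [← not_countable_iff]
    intro hc
    exact hE (countable_coe_iff.1 hc)
  obtain ⟨m, -, hm⟩ := exists_uncountable_fibre (ι := E) (univ : Set ℕ) countable_univ
    (fun i => n i) (fun _ => trivial)
  -- `Γ`
  let Γ : Set Om := {i | i ∈ E ∧ n i = m}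
  have hΓ : ¬ Γ.Countable := by
    intro hc
    apply hm
    have : {i : E | n i = m} = (fun i : E => (i : Om)) ⁻¹' Γ := by
      ext i
      simp [Γ]
    rw [this]
    exact hc.preimage Subtype.val_injective
  have : Uncountable Γ := by
    rw [← not_countable_iff]
    intro hc
    exact hΓ (countable_coe_iff.1 hc)
  obtain ⟨i0, hi0⟩ := narrow (hV m) (fun i : Γ => h (z (x i)))
  let Θ : Set Om := {i | i ∈ Γ ∧ h ((z (x i0))⁻¹ * z (x i)) ∈ V m}
  have hΘ : ¬ Θ.Countable := by
    intro hc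
    apply hi0
    have : {j : Γ | (h (z (x i0)))⁻¹ * h (z (x j)) ∈ V m} = (fun i : Γ => (i : Om)) ⁻¹' Θ := by
      ext i
      simp [Θ]
    rw [this]
    exact hc.preimage Subtype.val_injective
  -- `γ`
  have hγ : ∀ t : Om, ∃ c ∈ Γ, t < c ∧ (i0 : Om) < c := by
    intro t
    by_contra hcc
    push Not at hcc
    apply hΓ
    refine (om_Iic (max t i0)).mono ?_
    intro c hc
    rw [mem_Iic, le_max_iff]
    by_contra h2
    push Not at h2
    exact absurd (hcc c hc h2.1) (not_le.2 h2.2)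
  choose γ hγΓ hγt hγi using hγ
  let J : Set Om := γ '' Θ
  have hJ : ¬ J.Countable := by
    intro hc
    apply hΘ
    refine (hc.biUnion fun c _ => om_Iio c).mono ?_
    intro t ht
    simp only [mem_iUnion, mem_Iio]
    exact ⟨γ t, ⟨t, ht, rfl⟩, hγt t⟩
  have : Uncountable J := by
    rw [← not_countable_iff]
    intro hc
    exact hJ (countable_coe_iff.1 hc)
  have hθ : ∀ c : J, ∃ t ∈ Θ, γ t = c := fun c => c.2
  choose θ hθΘ hθγ using hθ
  have hθc : ∀ c : J, θ c < c := fun c => by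
    have := hγt (θ c)
    rwa [hθγ c] at this
  have hic : ∀ c : J, (i0 : Om) < c := fun c => by
    have := hγi (θ c)
    rwa [hθγ c] at this
  have hcΓ : ∀ c : J, (c : Om) ∈ Γ := fun c => by
    have := hγΓ (θ c)
    rwa [hθγ c] at this
  have hθinj : Function.Injective θ := by
    intro c c' hcc
    apply Subtype.ext
    rw [← hθγ c, ← hθγ c', hcc]
  -- the key property
  have key : ∀ c : J, ∀ t ∈ Θ, t < c → z (x c) * (z (x i0))⁻¹ * z (x t) ∈ O (x c) := by
    intro c t ht htc
    have h1 := hn (c : Om) (x i0) ⟨i0, hic c, rfl⟩ (x t) ⟨t, htc, rfl⟩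
      (i0.2.1 _ (hic c)) (ht.1.1 _ htc)
    rw [(hcΓ c).2] at h1
    exact h1 ht.2
  have hp : ∀ c : J, z (x c) * (z (x i0))⁻¹ * z (x (θ c)) ∈ O (x c) :=
    fun c => key c (θ c) (hθΘ c) (hθc c)
  have hχ := fun c : J => exists_bump (hOo (x c)) (hp c)
  choose χ hχc hχ1 hχ0 using hχ
  have hψ := fun c : J => exists_bump (hOo (x (θ c))) (hz (x (θ c)))
  choose ψ hψc hψ1 hψ0 using hψ
  let φ : J → G → ℝ := fun c g => χ c g * ψ c (z (x i0) * (z (x c))⁻¹ * g)
  have hd' : DiscreteFamily (fun c : J => O (x c)) :=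
    hd.comp (e := fun c : J => x c) (fun c c' hcc => Subtype.ext (hinj hcc))
  have hφc : ∀ c, Continuous (φ c) := fun c =>
    (hχc c).mul ((hψc c).comp (continuous_const.mul continuous_id))
  have hφ0 : ∀ (c : J) (g : G), g ∉ O (x c) → φ c g = 0 := by
    intro c g hg
    simp only [φ, hχ0 c g hg, zero_mul]
  have hf : Continuous (glue φ) := glue_continuous hd' hφc hφ0
  have hval : ∀ c c' : J, θ c' < c → glue φ (z (x c) * ((z (x i0))⁻¹ * z (x (θ c')))) =
      χ c (z (x c) * ((z (x i0))⁻¹ * z (x (θ c')))) * ψ c (z (x (θ c'))) := by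
    intro c c' hcc
    have hmem := key c (θ c') (hθΘ c') hcc
    rw [mul_assoc] at hmem
    rw [glue_eq hd' hφ0 (i := c) hmem]
    simp only [φ]
    congr 2
    group
  obtain ⟨c, c', hcc, h1, h2⟩ := hG.exchange hf (fun c : J => z (x c))
    (fun c : J => (z (x i0))⁻¹ * z (x (θ c))) (by
      intro c
      rw [hval c c (hθc c)]
      have e := hχ1 c
      rw [mul_assoc] at e
      rw [e, hψ1 c, mul_one])
  have hzero : ∀ c c' : J, c ≠ c' → ψ c (z (x (θ c'))) = 0 := by
    intro c c' hne'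
    apply hψ0
    intro hmem
    have := hd.eq hmem (hz (x (θ c')))
    exact hne' (hθinj (hinj this))
  rcases lt_or_ge (θ c') (c : Om) with hlt | hge
  · rw [hval c c' hlt, hzero c c' hcc, mul_zero] at h1
    norm_num at h1
  · have hlt' : θ c < (c' : Om) := lt_of_lt_of_le (hθc c) (le_trans hge (hθc c').le)
    rw [hval c' c hlt', hzero c' c (Ne.symm hcc), mul_zero] at h2
    norm_num at h2

end Pool.Agent.Q212.RF
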