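import Pool.Agent.Q212.RF.Claim

/-!
# Counting: a discrete family of size `κ` in an ℝ-factorizable group has `2 ^ κ ≤ 2 ^ ℵ₀`
-/

set_option autoImplicit false

namespace Pool.Agent.Q212.RF

open Cardinal Topology Set Filter

universe u v w

/-- countable data which determine the colouring `F` -/
def Good {G : Type u} [Group G] {I : Type v} [LT I] (O : I → Set G) (z : I → G) (F : I → Bool)
    (d : (ℕ → I) × (ℕ → Bool) × Set (ℕ × ℕ × ℕ)) : Prop :=
  (∀ i, d.2.1 i = F (d.1 i)) ∧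
  (∀ x, x ∉ range d.1 → ∀ n, ∃ i j, (n, i, j) ∈ d.2.2 ∧ d.1 i < x ∧ d.1 j < x ∧
    z x * (z (d.1 i))⁻¹ * z (d.1 j) ∉ O x) ∧
  (∀ x, ∃ N, ∀ n, N ≤ n → ∀ i j, (n, i, j) ∈ d.2.2 →
    ∃ l, z x * (z (d.1 i))⁻¹ * z (d.1 j) ∈ O l ∧ F l = F x)

theorem Good.unique {G : Type u} [Group G] [TopologicalSpace G] {I : Type v} [LinearOrder I]
    [WellFoundedLT I] {O : I → Set G} (hd : DiscreteFamily O) {z : I → G}
    (hM : ∀ i, ∀ j < i, ∀ k < i, ∀ l, z i * (z j)⁻¹ * z k ∈ O l → l ≤ i)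
    {F F' : I → Bool} {d : (ℕ → I) × (ℕ → Bool) × Set (ℕ × ℕ × ℕ)}
    (h : Good O z F d) (h' : Good O z F' d) : F = F' := by
  funext x
  induction x using WellFoundedLT.induction with
  | _ x ih =>
    by_cases hx : x ∈ range d.1
    · obtain ⟨i, rfl⟩ := hx
      rw [← h.1 i, ← h'.1 i]
    · obtain ⟨N, hN⟩ := h.2.2 x
      obtain ⟨N', hN'⟩ := h'.2.2 x
      obtain ⟨i, j, hT, hi, hj, hO⟩ := h.2.1 x hx (max N N')
      obtain ⟨l, hl, hFl⟩ := hN _ (le_max_left _ _) i j hT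
      obtain ⟨l', hl', hFl'⟩ := hN' _ (le_max_right _ _) i j hT
      obtain rfl := hd.eq hl hl'
      have h1 : l ≤ x := hM x _ hi _ hj l hl
      have h2 : l ≠ x := by
        rintro rfl
        exact hO hl
      rw [← hFl, ← hFl', ih l (lt_of_le_of_ne h1 h2)]

theorem Good.exists {G : Type u} [Group G] [TopologicalSpace G] [IsTopologicalGroup G]
    (hG : RFactorizable G) {I : Type v} [LinearOrder I] [WellFoundedLT I] [Nonempty I]
    {O : I → Set G} (hOo : ∀ i, IsOpen (O i)) (hd : DiscreteFamily O) {z : I → G}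
    (hz : ∀ i, z i ∈ O i) (F : I → Bool) : ∃ d, Good O z F d := by
  classical
  have hψ := fun i : I => exists_bump (hOo i) (hz i)
  choose ψ hψc hψ1 hψ0 using hψ
  let ε : I → ℝ := fun i => if F i = true then 1 else 0
  let φ : I → G → ℝ := fun i g => ε i * ψ i g
  have hφc : ∀ i, Continuous (φ i) := fun i => continuous_const.mul (hψc i)
  have hφ0 : ∀ (i : I) (g : G), g ∉ O i → φ i g = 0 := by
    intro i g hg
    simp only [φ, hψ0 i g hg, mul_zero]
  obtain ⟨K, _, _, _, _, h, g₁, g₂, hg₁, hg₂, e₁, e₂⟩ :=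
    hG.pair (glue_continuous hd hψc hψ0) (glue_continuous hd hφc hφ0)
  obtain ⟨V, hV⟩ := (𝓝 (1 : K)).exists_antitone_basis
  obtain ⟨A, hA, hAx⟩ := claimA hG O hOo hd z hz h V (fun n => hV.1.mem_of_mem trivial)
  obtain ⟨i0⟩ := (inferInstance : Nonempty I)
  obtain ⟨a, ha⟩ := (hA.insert i0).exists_eq_range (insert_nonempty i0 A)
  refine ⟨(a, fun i => F (a i), {p | h ((z (a p.2.1))⁻¹ * z (a p.2.2)) ∈ V p.1}),
    fun i => rfl, ?_, ?_⟩
  · intro x hx n
    have hxA : x ∉ A := fun hxA => hx (by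
      change x ∈ range a
      rw [← ha]
      exact mem_insert_of_mem _ hxA)
    obtain ⟨y, hy, w, hw, hyx, hwx, hVn, hO⟩ := hAx x hxA n
    have hya : y ∈ range a := by
      rw [← ha]
      exact mem_insert_of_mem _ hy
    have hwa : w ∈ range a := by
      rw [← ha]
      exact mem_insert_of_mem _ hw
    obtain ⟨i, rfl⟩ := hya
    obtain ⟨j, rfl⟩ := hwa
    exact ⟨i, j, hVn, hyx, hwx, hO⟩
  · intro x
    have v1 : g₁ (h (z x)) = 1 := by
      rw [← e₁, glue_eq hd hψ0 (hz x), hψ1]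
    have v2 : g₂ (h (z x)) = ε x := by
      rw [← e₂, glue_eq hd hφ0 (hz x)]
      simp only [φ, hψ1, mul_one]
    have c1 : {k : K | 1 / 2 < g₁ (h (z x) * k)} ∈ 𝓝 (1 : K) := by
      have hop : IsOpen {k : K | 1 / 2 < g₁ (h (z x) * k)} :=
        isOpen_lt continuous_const (hg₁.comp (continuous_const.mul continuous_id))
      refine hop.mem_nhds ?_
      change 1 / 2 < g₁ (h (z x) * 1)
      rw [mul_one, v1]
      norm_num
    have c2 : {k : K | |g₂ (h (z x) * k) - ε x| < 1 / 2} ∈ 𝓝 (1 : K) := by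
      have hop : IsOpen {k : K | |g₂ (h (z x) * k) - ε x| < 1 / 2} :=
        isOpen_lt (((hg₂.comp (continuous_const.mul continuous_id)).sub continuous_const).abs)
          continuous_const
      refine hop.mem_nhds ?_
      change |g₂ (h (z x) * 1) - ε x| < 1 / 2
      rw [mul_one, v2, sub_self, abs_zero]
      norm_num
    obtain ⟨N, -, hN⟩ := hV.1.mem_iff.1 (inter_mem c1 c2)
    refine ⟨N, fun n hn i j hT => ?_⟩
    have hk := hN (hV.2 hn hT)
    obtain ⟨hk1, hk2⟩ := hk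
    change 1 / 2 < g₁ (h (z x) * h ((z (a i))⁻¹ * z (a j))) at hk1
    change |g₂ (h (z x) * h ((z (a i))⁻¹ * z (a j))) - ε x| < 1 / 2 at hk2
    rw [← map_mul, ← e₁, ← mul_assoc] at hk1
    rw [← map_mul, ← e₂, ← mul_assoc] at hk2
    have hex : ∃ l, z x * (z (a i))⁻¹ * z (a j) ∈ O l := by
      by_contra hcon
      push Not at hcon
      rw [glue_eq_zero hψ0 hcon] at hk1
      norm_num at hk1
    obtain ⟨l, hl⟩ := hex
    refine ⟨l, hl, ?_⟩
    rw [glue_eq hd hψ0 hl] at hk1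
    rw [glue_eq hd hφ0 hl] at hk2
    simp only [φ, ε] at hk2
    rw [abs_lt] at hk2
    by_cases h1 : F l = true
    · by_cases h2 : F x = true
      · rw [h1, h2]
      · exfalso
        rw [if_pos h1, if_neg h2] at hk2
        linarith [hk2.1, hk2.2]
    · by_cases h2 : F x = true
      · exfalso
        rw [if_neg h1, if_pos h2] at hk2
        linarith [hk2.1, hk2.2]
      · rw [Bool.not_eq_true] at h1 h2
        rw [h1, h2]

theorem mk_le_of_good {G : Type u} [Group G] [TopologicalSpace G] [IsTopologicalGroup G]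
    (hG : RFactorizable G) {I : Type v} [LinearOrder I] [WellFoundedLT I] [Nonempty I]
    {O : I → Set G} (hOo : ∀ i, IsOpen (O i)) (hd : DiscreteFamily O) {z : I → G}
    (hz : ∀ i, z i ∈ O i)
    (hM : ∀ i, ∀ j < i, ∀ k < i, ∀ l, z i * (z j)⁻¹ * z k ∈ O l → l ≤ i) :
    (2 : Cardinal.{v}) ^ #I ≤ #I ^ ℵ₀ * 2 ^ ℵ₀ := by
  have hex := fun F : I → Bool => Good.exists hG hOo hd hz F
  choose D hD using hex
  have hinj : Function.Injective D := by
    intro F F' hFF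
    have h1 := hD F
    rw [hFF] at h1
    exact Good.unique hd hM h1 (hD F')
  have h2 := Cardinal.mk_le_of_injective hinj
  have e1 : #(I → Bool) = (2 : Cardinal.{v}) ^ #I := by simp
  have e2 : #((ℕ → I) × (ℕ → Bool) × Set (ℕ × ℕ × ℕ)) = #I ^ ℵ₀ * 2 ^ ℵ₀ := by
    rw [Cardinal.mk_prod, Cardinal.mk_prod]
    have a1 : #(ℕ → I) = #I ^ ℵ₀ := by simp
    have a2 : #(ℕ → Bool) = 2 ^ ℵ₀ := by simp
    have a3 : #(Set (ℕ × ℕ × ℕ)) = 2 ^ ℵ₀ := by simp
    rw [a1, a2, a3]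
    simp
  rw [e1, e2] at h2
  exact h2

end Pool.Agent.Q212.RF
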