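import Pool.Agent.Q212.RF.Count

/-!
# Discrete families of open sets in ℝ-factorizable groups are small
-/

set_option autoImplicit false

namespace Pool.Agent.Q212.RF

open Cardinal Topology Set Filter

universe u v w

theorem mk_closure_le {G : Type u} [Group G] (s : Set G) :
    #(Subgroup.closure s) ≤ max #s ℵ₀ := by
  have e : Subgroup.closure s = (FreeGroup.lift ((↑) : s → G)).range :=
    FreeGroup.closure_eq_range s
  have h1 : #(Subgroup.closure s) ≤ #(FreeGroup s) := by
    rw [e]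
    exact Cardinal.mk_le_of_surjective (MonoidHom.rangeRestrict_surjective _)
  refine h1.trans ?_
  rcases isEmpty_or_nonempty s with hs | hs
  · exact (Cardinal.mk_le_aleph0_iff.2 inferInstance).trans (le_max_right _ _)
  · rw [Cardinal.mk_freeGroup]

theorem pow_le_mul {G : Type u} [Group G] [TopologicalSpace G] [IsTopologicalGroup G]
    (hG : RFactorizable G) {D : Type u} [Uncountable D] {O : D → Set G}
    (hOo : ∀ i, IsOpen (O i)) (hOn : ∀ i, (O i).Nonempty) (hd : DiscreteFamily O) :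
    (2 : Cardinal.{u}) ^ #D ≤ #D ^ ℵ₀ * 2 ^ ℵ₀ := by
  have hD0 : ℵ₀ < #D := Cardinal.aleph0_lt_mk_iff.2 inferInstance
  have hDne : Nonempty D := by
    rw [← Cardinal.mk_ne_zero_iff]
    exact (lt_of_le_of_lt (zero_le) hD0).ne'
  choose z hz using hOn
  let I : Type u := (#D).ord.ToType
  have hmkI : #I = #D := by
    simp only [I, Cardinal.mk_toType, Cardinal.card_ord]
  have hIne : Nonempty I := by
    rw [← Cardinal.mk_ne_zero_iff, hmkI]
    exact (lt_of_le_of_lt (zero_le) hD0).ne'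
  obtain ⟨x, hx⟩ := exists_rec (Ω := I)
    (fun (S : Set D) d => ∀ g ∈ Subgroup.closure (z '' S), g ∉ O d)
    (fun S => #S < #D)
    (fun x i => lt_of_le_of_lt Cardinal.mk_image_le (Cardinal.mk_Iio_toType_ord_lt i)) (by
      intro S hS
      by_contra hcon
      push Not at hcon
      choose g hg hgO using hcon
      have hinj : Function.Injective (fun d : D => (⟨g d, hg d⟩ : Subgroup.closure (z '' S))) := by
        intro d d' hdd
        have e : g d = g d' := congrArg Subtype.val hdd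
        exact hd.eq (hgO d) (e ▸ hgO d')
      have h1 := Cardinal.mk_le_of_injective hinj
      have h2 := mk_closure_le (z '' S)
      have h3 : #(z '' S) < #D := lt_of_le_of_lt Cardinal.mk_image_le hS
      exact absurd (h1.trans h2) (not_le.2 (max_lt h3 hD0)))
  have hmem : ∀ i j, j < i → z (x j) ∈ Subgroup.closure (z '' (x '' Iio i)) :=
    fun i j hji => Subgroup.subset_closure ⟨x j, ⟨j, hji, rfl⟩, rfl⟩
  have hne : ∀ i j, j < i → x j ≠ x i := by
    intro i j hji e
    have h1 : z (x j) ∉ O (x i) := hx i (z (x j)) (hmem i j hji)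
    rw [← e] at h1
    exact h1 (hz (x j))
  have hinj : Function.Injective x := by
    intro i j hij
    rcases lt_trichotomy i j with h1 | h1 | h1
    · exact absurd hij (hne j i h1)
    · exact h1
    · exact absurd hij.symm (hne i j h1)
  have key := mk_le_of_good hG (I := I) (O := fun i => O (x i)) (fun i => hOo (x i))
    (hd.comp hinj) (z := fun i => z (x i)) (fun i => hz (x i)) (by
      intro i j hj k hk l hl
      by_contra hcon
      push Not at hcon
      refine hx l _ ?_ hl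
      exact mul_mem (mul_mem (hmem l i hcon) (inv_mem (hmem l j (hj.trans hcon))))
        (hmem l k (hk.trans hcon)))
  rw [hmkI] at key
  exact key

/-- In an ℝ-factorizable group every discrete family of nonempty open sets, with `κ` members,
satisfies `2 ^ κ ≤ 2 ^ ℵ₀`. -/
theorem two_pow_le {G : Type u} [Group G] [TopologicalSpace G] [IsTopologicalGroup G]
    (hG : RFactorizable G) {D : Type u} {O : D → Set G}
    (hOo : ∀ i, IsOpen (O i)) (hOn : ∀ i, (O i).Nonempty) (hd : DiscreteFamily O) :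
    (2 : Cardinal.{u}) ^ #D ≤ 2 ^ ℵ₀ := by
  rcases le_or_gt #D ℵ₀ with hc | hc
  · exact Cardinal.power_le_power_left two_ne_zero hc
  have hDu : Uncountable D := Cardinal.aleph0_lt_mk_iff.1 hc
  rcases le_or_gt #D (2 ^ ℵ₀) with h1 | h1
  · have h2 := pow_le_mul hG hOo hOn hd
    have h3 : #D ^ ℵ₀ ≤ (2 : Cardinal.{u}) ^ ℵ₀ := by
      calc #D ^ ℵ₀ ≤ ((2 : Cardinal.{u}) ^ ℵ₀) ^ ℵ₀ := Cardinal.power_le_power_right h1
        _ = 2 ^ ℵ₀ := by rw [← Cardinal.power_mul, Cardinal.aleph0_mul_aleph0]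
    refine h2.trans ?_
    calc #D ^ ℵ₀ * 2 ^ ℵ₀ ≤ (2 : Cardinal.{u}) ^ ℵ₀ * 2 ^ ℵ₀ := mul_le_mul_left h3 _
      _ = 2 ^ ℵ₀ := by rw [← Cardinal.power_add, Cardinal.aleph0_add_aleph0]
  · exfalso
    obtain ⟨E, hE⟩ := Cardinal.le_mk_iff_exists_set.1 h1.le
    have hcE : ℵ₀ < #E := by
      rw [hE]
      exact Cardinal.cantor ℵ₀
    have hEu : Uncountable E := Cardinal.aleph0_lt_mk_iff.1 hcE
    have h2 := pow_le_mul hG (D := E) (O := fun e => O e) (fun e => hOo e) (fun e => hOn e)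
      (hd.comp Subtype.val_injective)
    rw [hE] at h2
    have h3 : ((2 : Cardinal.{u}) ^ ℵ₀) ^ ℵ₀ = 2 ^ ℵ₀ := by
      rw [← Cardinal.power_mul, Cardinal.aleph0_mul_aleph0]
    rw [h3, ← Cardinal.power_add, Cardinal.aleph0_add_aleph0] at h2
    exact absurd h2 (not_le.2 (Cardinal.cantor _))

/-- the slices of a space homeomorphic to `H × D` -/
theorem slices {G H D : Type u} [TopologicalSpace G] [TopologicalSpace H] [Nonempty H]
    [TopologicalSpace D] [DiscreteTopology D] (e : G ≃ₜ H × D) :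
    ∃ O : D → Set G, (∀ d, IsOpen (O d)) ∧ (∀ d, (O d).Nonempty) ∧ DiscreteFamily O := by
  refine ⟨fun d => {g | (e g).2 = d}, ?_, ?_, ?_⟩
  · intro d
    exact (isOpen_discrete {d}).preimage (continuous_snd.comp e.continuous)
  · intro d
    obtain ⟨a⟩ := (inferInstance : Nonempty H)
    exact ⟨e.symm (a, d), by simp⟩
  · intro x
    refine ⟨{g | (e g).2 = (e x).2}, ?_, ?_⟩
    · have : IsOpen {g | (e g).2 = (e x).2} :=
        (isOpen_discrete {(e x).2}).preimage (continuous_snd.comp e.continuous)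
      exact this.mem_nhds rfl
    · rintro i ⟨y, hy1, hy2⟩ j ⟨w, hw1, hw2⟩
      simp only [mem_setOf_eq] at hy1 hy2 hw1 hw2
      rw [← hy1, ← hw1, hy2, hw2]

/-- from a locally finite family of open sets to a discrete one -/
theorem exists_discrete {X : Type u} [TopologicalSpace X] [RegularSpace X] {ι : Type v}
    [Uncountable ι] {O : ι → Set X} (hOo : ∀ i, IsOpen (O i)) (hOn : ∀ i, (O i).Nonempty)
    (hl : LocallyFinite O) : ∃ (S : Set ι) (W : S → Set X), #ι ≤ #S ∧
      (∀ i, IsOpen (W i)) ∧ (∀ i, (W i).Nonempty) ∧ DiscreteFamily W := by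
  choose x hx using hOn
  have h1 : ∀ i, ∃ V : Set X, IsOpen V ∧ x i ∈ V ∧ V ⊆ O i ∧ {j | (O j ∩ V).Nonempty}.Finite := by
    intro i
    obtain ⟨t, ht, hf⟩ := hl (x i)
    obtain ⟨V, hVs, hVo, hxV⟩ := mem_nhds_iff.1 (inter_mem ht ((hOo i).mem_nhds (hx i)))
    refine ⟨V, hVo, hxV, fun y hy => (hVs hy).2, hf.subset ?_⟩
    rintro j ⟨y, hy1, hy2⟩
    exact ⟨y, hy1, (hVs hy2).1⟩
  choose V hVo hxV hVO hVf using h1
  have h2 : ∀ i, ∃ W : Set X, IsOpen W ∧ x i ∈ W ∧ closure W ⊆ V i := by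
    intro i
    obtain ⟨t, ht, htc, hts⟩ := exists_mem_nhds_isClosed_subset ((hVo i).mem_nhds (hxV i))
    refine ⟨interior t, isOpen_interior, mem_interior_iff_mem_nhds.2 ht, ?_⟩
    exact (closure_minimal interior_subset htc).trans hts
  choose W hWo hxW hWV using h2
  -- a maximal subfamily with disjoint members `V i`
  obtain ⟨S, hS⟩ := zorn_subset {S : Set ι | S.PairwiseDisjoint V} (by
    intro c hc hchain
    refine ⟨⋃₀ c, ?_, fun s hs => subset_sUnion_of_mem hs⟩
    exact (pairwiseDisjoint_sUnion hchain.directedOn).2 fun s hs => hc hs)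
  have hSd : S.PairwiseDisjoint V := hS.prop
  have hSu : #ι ≤ #S := by
    have h3 : (univ : Set ι) ⊆ S ∪ ⋃ i ∈ S, {j | (O j ∩ V i).Nonempty} := by
      intro j _
      by_contra hj
      rw [mem_union, not_or] at hj
      obtain ⟨hjS, hjN⟩ := hj
      have hins : (insert j S).PairwiseDisjoint V := by
        refine hSd.insert fun i hi _ => ?_
        rw [Set.disjoint_iff_inter_eq_empty]
        by_contra hne
        obtain ⟨y, hy1, hy2⟩ := nonempty_iff_ne_empty.2 hne
        apply hjN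
        simp only [mem_iUnion]
        exact ⟨i, hi, y, hVO j hy1, hy2⟩
      exact hjS (hS.le_of_ge hins (subset_insert j S) (mem_insert j S))
    have h4 : #(⋃ i ∈ S, {j | (O j ∩ V i).Nonempty} : Set ι) ≤ #S * ℵ₀ := by
      refine (Cardinal.mk_biUnion_le _ _).trans (mul_le_mul_right ?_ _)
      exact ciSup_le' fun i => Cardinal.le_aleph0_iff_set_countable.2 (hVf i).countable
    have h5 : #ι ≤ #S + #S * ℵ₀ := by
      rw [← Cardinal.mk_univ]
      exact (Cardinal.mk_le_mk_of_subset h3).trans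
        ((Cardinal.mk_union_le _ _).trans (add_le_add_right h4 _))
    have h6 : ℵ₀ < #ι := Cardinal.aleph0_lt_mk_iff.2 inferInstance
    rcases le_or_gt ℵ₀ #S with h7 | h7
    · rw [Cardinal.mul_aleph0_eq h7, Cardinal.add_eq_self h7] at h5
      exact h5
    · exfalso
      have h8 : #S + #S * ℵ₀ ≤ ℵ₀ := by
        calc #S + #S * ℵ₀ ≤ ℵ₀ + ℵ₀ * ℵ₀ := add_le_add h7.le (mul_le_mul_left h7.le _)
          _ = ℵ₀ := by rw [Cardinal.aleph0_mul_aleph0, Cardinal.aleph0_add_aleph0]
      exact absurd (h5.trans h8) (not_le.2 h6)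
  refine ⟨S, fun i => W i, hSu, fun i => hWo i, fun i => ⟨x i, hxW i⟩, ?_⟩
  intro p
  obtain ⟨t, ht, hf⟩ := hl p
  let B : Set ι := {j | (O j ∩ t).Nonempty ∧ p ∉ closure (W j)}
  have hBf : B.Finite := hf.subset fun j hj => hj.1
  have hN : t ∩ ⋂ j ∈ B, (closure (W j))ᶜ ∈ 𝓝 p := by
    refine inter_mem ht ((biInter_mem hBf).2 fun j hj => ?_)
    exact isClosed_closure.isOpen_compl.mem_nhds hj.2
  refine ⟨_, hN, ?_⟩
  have hkey : ∀ i : S, ((W i) ∩ (t ∩ ⋂ j ∈ B, (closure (W j))ᶜ)).Nonempty → p ∈ V i := by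
    rintro i ⟨y, hy1, hy2, hy3⟩
    by_contra hp
    have hiB : (i : ι) ∈ B :=
      ⟨⟨y, hVO i (hWV i (subset_closure hy1)), hy2⟩, fun h => hp (hWV i h)⟩
    rw [mem_iInter₂] at hy3
    exact hy3 i hiB (subset_closure hy1)
  intro i hi j hj
  have hi' := hkey i hi
  have hj' := hkey j hj
  by_contra hne
  have hne' : (i : ι) ≠ j := fun h => hne (Subtype.ext h)
  exact (Set.disjoint_left.1 (hSd i.2 j.2 hne')) hi' hj'

/-- In an ℝ-factorizable group every locally finite family of nonempty open sets, with `κ`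
members, satisfies `2 ^ κ ≤ 2 ^ ℵ₀`. -/
theorem two_pow_le_of_locallyFinite {G : Type u} [Group G] [TopologicalSpace G]
    [IsTopologicalGroup G] (hG : RFactorizable G) {D : Type u} {O : D → Set G}
    (hOo : ∀ i, IsOpen (O i)) (hOn : ∀ i, (O i).Nonempty) (hl : LocallyFinite O) :
    (2 : Cardinal.{u}) ^ #D ≤ 2 ^ ℵ₀ := by
  rcases le_or_gt #D ℵ₀ with hc | hc
  · exact Cardinal.power_le_power_left two_ne_zero hc
  have hDu : Uncountable D := Cardinal.aleph0_lt_mk_iff.1 hc
  obtain ⟨S, W, hS, hWo, hWn, hd⟩ := exists_discrete hOo hOn hl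
  exact (Cardinal.power_le_power_left two_ne_zero hS).trans (two_pow_le hG hWo hWn hd)

end Pool.Agent.Q212.RF
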